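import Pool.Agent.Helper71.UQ.Goals

set_option autoImplicit false

open Finset Pool.Agent.Helper71.UQ

namespace Pool.Agent.Helper42.UQ.PkPAR

lemma h42_ll_ge_one {x : ℝ} (hx : 0 ≤ x) : 1 ≤ ll x := by
  unfold ll
  have h1 : Real.log (Real.exp 1) ≤ Real.log (Real.exp 1 + x) :=
    Real.log_le_log (Real.exp_pos 1) (by linarith)
  rwa [Real.log_exp] at h1

lemma h42_exp1_le : Real.exp 1 ≤ 3 := by
  have := Real.exp_one_lt_d9
  linarith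

lemma h42_ll_le_46 {J : ℕ} (hJ : J < 2 ^ 64) : ll (J : ℝ) ≤ 46 := by
  unfold ll
  have h1 : Real.exp 1 + (J : ℝ) ≤ 2 ^ 65 := by
    have h2 : (J : ℝ) ≤ 2 ^ 64 := by exact_mod_cast hJ.le
    have h3 := h42_exp1_le
    have h4 : (2 : ℝ) ^ 65 = 2 * 2 ^ 64 := by norm_num
    have h5 : (3 : ℝ) ≤ 2 ^ 64 := by norm_num
    rw [h4]
    linarith
  have h4 : Real.log (Real.exp 1 + (J : ℝ)) ≤ Real.log (2 ^ 65) :=
    Real.log_le_log (by positivity) h1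
  have h5 : Real.log ((2 : ℝ) ^ 65) = 65 * Real.log 2 := by
    rw [Real.log_pow]; norm_num
  have h6 := Real.log_two_lt_d9
  rw [h5] at h4
  linarith

/-- bounds for `ll J` through `Nat.log 2 J`. -/
lemma h42_ll_bounds {J l : ℕ} (hl : 64 ≤ l) (h1 : 2 ^ l ≤ J) (h2 : J < 2 ^ (l + 1)) :
    (l : ℝ) ≤ 2 * ll (J : ℝ) ∧ ll (J : ℝ) ≤ 2 * l := by
  have hl' : (64 : ℝ) ≤ l := by exact_mod_cast hl
  have hJ1 : ((2 : ℝ) ^ l) ≤ J := by exact_mod_cast h1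
  have hJ2 : (J : ℝ) ≤ (2 : ℝ) ^ (l + 1) := by exact_mod_cast h2.le
  have hlog1 := Real.log_two_gt_d9
  have hlog2 := Real.log_two_lt_d9
  have hp : (0 : ℝ) < 2 ^ l := by positivity
  constructor
  · have h3 : Real.log ((2 : ℝ) ^ l) ≤ ll (J : ℝ) := by
      unfold ll
      apply Real.log_le_log hp
      have := Real.exp_pos 1
      linarith
    rw [Real.log_pow] at h3
    nlinarith
  · have h3 : ll (J : ℝ) ≤ Real.log ((2 : ℝ) ^ (l + 2)) := by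
      unfold ll
      apply Real.log_le_log
      · have := Real.exp_pos 1
        have : (0 : ℝ) ≤ (J : ℝ) := Nat.cast_nonneg J
        linarith
      · have h4 := h42_exp1_le
        have h5 : (4 : ℝ) ≤ 2 ^ (l + 1) := by
          have : (2 : ℝ) ^ 2 ≤ 2 ^ (l + 1) := pow_le_pow_right₀ (by norm_num) (by omega)
          linarith
        have h6 : (2 : ℝ) ^ (l + 2) = 2 * 2 ^ (l + 1) := by ring
        linarith
    rw [Real.log_pow] at h3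
    push_cast at h3
    nlinarith

lemma h42_m_le {l m : ℕ} {x : ℝ} (hl : 64 ≤ l) (hm : 2 ^ (m - 1) ≤ l)
    (hm1 : 1 ≤ m) (hx : (l : ℝ) ≤ 2 * x) : (m : ℝ) ≤ 4 * ll x := by
  have hl' : (64 : ℝ) ≤ l := by exact_mod_cast hl
  have hlog1 := Real.log_two_gt_d9
  have hlog2 := Real.log_two_lt_d9
  have h1 : Real.log ((l : ℝ) / 2) ≤ ll x := by
    unfold ll
    apply Real.log_le_log (by linarith)
    have := Real.exp_pos 1
    linarith
  rw [Real.log_div (by linarith) (by norm_num)] at h1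
  have h2 : Real.log ((2 : ℝ) ^ (m - 1)) ≤ Real.log l := by
    apply Real.log_le_log (by positivity)
    exact_mod_cast hm
  rw [Real.log_pow, Nat.cast_sub hm1] at h2
  push_cast at h2
  have h3 : Real.log 64 ≤ Real.log l := Real.log_le_log (by norm_num) hl'
  have h4 : Real.log (64 : ℝ) = 6 * Real.log 2 := by
    rw [show (64 : ℝ) = 2 ^ 6 by norm_num, Real.log_pow]; norm_num
  have h5 : (4 : ℝ) ≤ Real.log l := by
    rw [h4] at h3; linarith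
  -- m - 1 ≤ log l / log 2 ≤ 1.5 log l
  have h6 : ((m : ℝ) - 1) * (2 / 3) ≤ Real.log l := by
    have : (0 : ℝ) ≤ (m : ℝ) - 1 := by
      have : (1 : ℝ) ≤ m := by exact_mod_cast hm1
      linarith
    nlinarith
  nlinarith

lemma h42_eight (n : ℕ) (hn : 7 ≤ n) : 8 * n ≤ 2 ^ (n - 1) := by
  induction n, hn using Nat.le_induction with
  | base => norm_num
  | succ k hk ih =>
    have : 2 ^ (k + 1 - 1) = 2 * 2 ^ (k - 1) := by
      rw [← pow_succ']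
      congr 1
      omega
    rw [this]
    omega

/-- the combinatorial choice. -/
lemma h42_choice {d l m : ℕ} (hd : 1 ≤ d) (hm : 7 ≤ m) (h8 : 8 * m ≤ l) :
    ∃ K τ : ℕ, K ≤ d ∧ 1 ≤ τ ∧ τ ≤ l ∧ l ≤ 12 * m * τ ∧ d ≤ m * K ∧ m * K ≤ d + m - 1 ∧
      2 * (τ + 1) * (d - K) ≤ l * ((K + 1) / 2) := by
  have hm0 : 0 < m := by omega
  refine ⟨(d + m - 1) / m, l / (4 * m) - 1, ?_, ?_, ?_, ?_, ?_, ?_, ?_⟩
  · -- (d + m - 1) / m ≤ d
    apply Nat.div_le_of_le_mul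
    nlinarith [Nat.sub_le (d + m) 1, Nat.mul_le_mul hm0 hd, show (d + m - 1) ≤ m * d from by
      obtain ⟨d', rfl⟩ : ∃ d', d = d' + 1 := ⟨d - 1, by omega⟩
      obtain ⟨m', rfl⟩ : ∃ m', m = m' + 1 := ⟨m - 1, by omega⟩
      have : d' + 1 + (m' + 1) - 1 = d' + m' + 1 := by omega
      rw [this]
      nlinarith [Nat.zero_le (d' * m')]]
  · have : 2 ≤ l / (4 * m) := by
      rw [Nat.le_div_iff_mul_le (by omega)]
      omega
    omega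
  · have : l / (4 * m) ≤ l := Nat.div_le_self _ _
    omega
  · have h1 : 2 ≤ l / (4 * m) := by
      rw [Nat.le_div_iff_mul_le (by omega)]
      omega
    have h2 : l < 4 * m * (l / (4 * m) + 1) := Nat.lt_mul_div_succ l (by omega)
    obtain ⟨v, hv⟩ : ∃ v, l / (4 * m) = v + 2 := ⟨l / (4 * m) - 2, by omega⟩
    rw [hv] at h2 ⊢
    have : v + 2 - 1 = v + 1 := by omega
    rw [this]
    nlinarith [Nat.zero_le (m * v)]
  · have h1 : d + m - 1 < m * ((d + m - 1) / m + 1) := Nat.lt_mul_div_succ _ hm0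
    have h2 : m * ((d + m - 1) / m + 1) = m * ((d + m - 1) / m) + m := by ring
    omega
  · exact Nat.mul_div_le _ _
  · have h1 : 2 ≤ l / (4 * m) := by
      rw [Nat.le_div_iff_mul_le (by omega)]
      omega
    have hu : l / (4 * m) - 1 + 1 = l / (4 * m) := by omega
    rw [hu]
    have h2 : 4 * m * (l / (4 * m)) ≤ l := Nat.mul_div_le _ _
    have h3 : d ≤ m * ((d + m - 1) / m) := by
      have h1 : d + m - 1 < m * ((d + m - 1) / m + 1) := Nat.lt_mul_div_succ _ hm0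
      have h2 : m * ((d + m - 1) / m + 1) = m * ((d + m - 1) / m) + m := by ring
      omega
    generalize l / (4 * m) = u at *
    generalize (d + m - 1) / m = K at *
    have h4 : K ≤ 2 * ((K + 1) / 2) := by omega
    have h5 : 2 * (2 * u * (d - K)) ≤ 4 * u * d := by
      have : d - K ≤ d := Nat.sub_le _ _
      nlinarith [Nat.mul_le_mul_left u this]
    have h6 : 4 * u * d ≤ 4 * u * (m * K) := Nat.mul_le_mul_left _ h3
    have h7 : 4 * u * (m * K) = (4 * m * u) * K := by ring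
    have h8 : (4 * m * u) * K ≤ l * K := Nat.mul_le_mul_right _ h2
    have h9 : l * K ≤ l * (2 * ((K + 1) / 2)) := Nat.mul_le_mul_left _ h4
    have h10 : l * (2 * ((K + 1) / 2)) = 2 * (l * ((K + 1) / 2)) := by ring
    omega

lemma h42_d_le (d : ℕ) : (d : ℝ) ≤ 2 ^ d := by
  exact_mod_cast (Nat.lt_two_pow_self (n := d)).le

/-- the small case -/
lemma h42_small {d J : ℕ} (hd : 1 ≤ d) (hJ : 1 ≤ J) (hJ64 : J < 2 ^ 64) :
    ((2 ^ d * ((4 ^ d * (J + 1) ^ 0 * (J / 1 + 2) ^ (d - 0)) *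
      (2 ^ (0 + 1) * (d * (J + 2 + 1) + 1))) : ℕ) : ℝ) ≤ (10 ^ 6 : ℝ) ^ d * gr d J ∧
  ((2 ^ d * (2 ^ 0 * (4 ^ d * (J + 1) ^ (0 - (0 + 1) / 2) * (J / 1 + 2) ^ (d - 0)) *
      (2 ^ 1 + 1) ^ (2 * (d - 0))) : ℕ) : ℝ) ≤ (10 ^ 6 : ℝ) ^ d * gr d J := by
  have hJr : (1 : ℝ) ≤ J := by exact_mod_cast hJ
  have hdr : (1 : ℝ) ≤ d := by exact_mod_cast hd
  have hl1 : 1 ≤ ll (J : ℝ) := h42_ll_ge_one (by linarith)
  have hl46 : ll (J : ℝ) ≤ 46 := h42_ll_le_46 hJ64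
  have hla : 1 ≤ ll (ll (J : ℝ)) := h42_ll_ge_one (by linarith)
  set ℓ := ll (J : ℝ) with hℓ
  set la := ll ℓ with hla_def
  set M : ℝ := ((J : ℝ) + 1) * la / ℓ with hM
  have hM0 : 0 < M := by rw [hM]; positivity
  have hJM : (J : ℝ) + 1 ≤ 46 * M := by
    rw [hM, mul_div_assoc', le_div_iff₀ (by linarith)]
    have h1 : ((J : ℝ) + 1) * ℓ ≤ ((J : ℝ) + 1) * 46 :=
      mul_le_mul_of_nonneg_left hl46 (by linarith)
    have h2 : ((J : ℝ) + 1) * 46 ≤ 46 * (((J : ℝ) + 1) * la) := by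
      have : ((J : ℝ) + 1) * 1 ≤ ((J : ℝ) + 1) * la := mul_le_mul_of_nonneg_left hla (by linarith)
      linarith
    linarith
  have hgr : gr d (J : ℝ) = ((J : ℝ) + 1) * ℓ * M ^ d := by
    unfold gr
    rfl
  have hpow : ((J : ℝ) + 2) ^ d ≤ (92 * M) ^ d := by
    apply pow_le_pow_left₀ (by linarith)
    linarith
  have hMd : 0 < M ^ d := by positivity
  constructor
  · push_cast
    simp only [pow_zero, mul_one, Nat.div_one, Nat.sub_zero]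
    rw [hgr]
    have h1 : (d : ℝ) * (J + 2 + 1) + 1 ≤ 3 * 2 ^ d * (J + 1) := by
      have : (d : ℝ) * (J + 2 + 1) + 1 ≤ 3 * d * (J + 1) := by nlinarith
      have h2 := h42_d_le d
      nlinarith
    have h6 : (6 : ℝ) ≤ 6 ^ d := by
      calc (6 : ℝ) = 6 ^ 1 := by norm_num
        _ ≤ 6 ^ d := pow_le_pow_right₀ (by norm_num) hd
    calc (2 : ℝ) ^ d * (4 ^ d * (J + 2) ^ d * (2 * (d * (J + 2 + 1) + 1)))
        ≤ (2 : ℝ) ^ d * (4 ^ d * (92 * M) ^ d * (2 * (3 * 2 ^ d * (J + 1)))) := by gcongr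
      _ = 6 * (2 * 4 * 92 * 2) ^ d * ((J + 1) * 1 * M ^ d) := by
          simp only [mul_pow]; ring
      _ ≤ 6 ^ d * (2 * 4 * 92 * 2) ^ d * ((J + 1) * ℓ * M ^ d) := by gcongr
      _ = (6 * (2 * 4 * 92 * 2)) ^ d * ((J + 1) * ℓ * M ^ d) := by rw [← mul_pow]
      _ ≤ (10 ^ 6 : ℝ) ^ d * ((J + 1) * ℓ * M ^ d) := by
          gcongr
          norm_num
  · push_cast
    simp only [Nat.div_one, Nat.sub_zero, one_mul, pow_zero, mul_one]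
    rw [hgr]
    have h39 : (3 : ℝ) ^ (2 * d) = 9 ^ d := by rw [pow_mul]; norm_num
    rw [h39]
    have h2 : 1 ≤ ((J : ℝ) + 1) * ℓ := by nlinarith
    calc (2 : ℝ) ^ d * (4 ^ d * (J + 2) ^ d * 9 ^ d)
        ≤ (2 : ℝ) ^ d * (4 ^ d * (92 * M) ^ d * 9 ^ d) := by gcongr
      _ = (2 * 4 * 92 * 9) ^ d * (1 * M ^ d) := by
          simp only [mul_pow]; ring
      _ ≤ (10 ^ 6 : ℝ) ^ d * (((J + 1) * ℓ) * M ^ d) := by
          gcongr
          norm_num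

/-- the bound of the product `P`. -/
lemma h42_P {d J l m K τ : ℕ} (hm : 7 ≤ m) (h8 : 8 * m ≤ l) (hJl : l ≤ J) (hτ : 1 ≤ τ)
    (hlτ : l ≤ 12 * m * τ) (hK : K ≤ d) (hmK : m * K ≤ d + m - 1) (hlm : l < 2 ^ m)
    (hml : 2 ^ (m - 1) ≤ l) {ℓ la : ℝ} (hℓ1 : 1 ≤ ℓ) (hla : (m : ℝ) ≤ 4 * la)
    (hl1 : (l : ℝ) ≤ 2 * ℓ) (hl2 : ℓ ≤ 2 * l) :
    ((J : ℝ) + 1) ^ K * (((J / τ : ℕ) : ℝ) + 2) ^ (d - K) ≤
      2 * ℓ * 224 ^ d * (((J : ℝ) + 1) * la / ℓ) ^ d := by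
  have hl0 : (0 : ℝ) < l := by
    have : 0 < l := by omega
    exact_mod_cast this
  have hm0 : (1 : ℝ) ≤ m := by
    have : 1 ≤ m := by omega
    exact_mod_cast this
  have hτ0 : (0 : ℝ) < τ := by exact_mod_cast hτ
  have hJ0 : (0 : ℝ) ≤ J := Nat.cast_nonneg J
  have hJl' : (l : ℝ) ≤ J := by exact_mod_cast hJl
  have hlτ' : (l : ℝ) ≤ 12 * m * τ := by exact_mod_cast hlτ
  have hla0 : 0 < la := by linarith
  -- step 1
  have s1 : ((J / τ : ℕ) : ℝ) + 2 ≤ ((J : ℝ) + 1) * (14 * m / l) := by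
    have h1 : ((J / τ : ℕ) : ℝ) ≤ (J : ℝ) / τ := Nat.cast_div_le
    have h2 : (J : ℝ) / τ ≤ J * (12 * m) / l := by
      rw [div_le_div_iff₀ hτ0 hl0]
      nlinarith
    have h3 : (2 : ℝ) ≤ 2 * m * (J + 1) / l := by
      rw [le_div_iff₀ hl0]
      nlinarith
    have h4 : ((J : ℝ) + 1) * (14 * m / l) = J * (12 * m) / l + 2 * m * (J + 1) / l + 12 * m / l := by
      field_simp
      ring
    have h5 : 0 ≤ 12 * (m : ℝ) / l := by positivity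
    rw [h4]
    linarith
  have s2 : ((J : ℝ) + 1) ^ K * (((J / τ : ℕ) : ℝ) + 2) ^ (d - K) ≤
      ((J : ℝ) + 1) ^ d * (14 * m / l) ^ (d - K) := by
    calc ((J : ℝ) + 1) ^ K * (((J / τ : ℕ) : ℝ) + 2) ^ (d - K)
        ≤ ((J : ℝ) + 1) ^ K * (((J : ℝ) + 1) * (14 * m / l)) ^ (d - K) := by gcongr
      _ = ((J : ℝ) + 1) ^ (K + (d - K)) * (14 * m / l) ^ (d - K) := by
          rw [mul_pow, pow_add]; ring
      _ = _ := by rw [Nat.add_sub_cancel' hK]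
  have s3 : (14 * (m : ℝ) / l) ^ (d - K) ≤ (14 * (m : ℝ) / l) ^ d * (l : ℝ) ^ K := by
    have h1 : (14 * (m : ℝ) / l) ^ d = (14 * (m : ℝ) / l) ^ (d - K) * (14 * (m : ℝ) / l) ^ K := by
      rw [← pow_add, Nat.sub_add_cancel hK]
    rw [h1, mul_assoc, ← mul_pow, div_mul_cancel₀ _ hl0.ne']
    have h2 : (1 : ℝ) ≤ (14 * (m : ℝ)) ^ K := one_le_pow₀ (by linarith)
    have h3 : 0 ≤ (14 * (m : ℝ) / l) ^ (d - K) := by positivity
    nlinarith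
  have s4 : (l : ℝ) ^ K ≤ 2 ^ d * l := by
    have h1 : l ^ K ≤ 2 ^ d * l := by
      calc l ^ K ≤ (2 ^ m) ^ K := Nat.pow_le_pow_left hlm.le K
        _ = 2 ^ (m * K) := by rw [pow_mul]
        _ ≤ 2 ^ (d + m - 1) := Nat.pow_le_pow_right (by norm_num) hmK
        _ = 2 ^ d * 2 ^ (m - 1) := by rw [← pow_add]; congr 1; omega
        _ ≤ 2 ^ d * l := Nat.mul_le_mul_left _ hml
    exact_mod_cast h1
  have s5 : 14 * (m : ℝ) / l ≤ 112 * (la / ℓ) := by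
    rw [div_le_iff₀ hl0]
    have h1 : 112 * (la / ℓ) * l = 112 * la * l / ℓ := by ring
    rw [h1, le_div_iff₀ (by linarith)]
    calc 14 * (m : ℝ) * ℓ ≤ 14 * (4 * la) * (2 * l) := by gcongr
      _ = 112 * la * l := by ring
  calc ((J : ℝ) + 1) ^ K * (((J / τ : ℕ) : ℝ) + 2) ^ (d - K)
      ≤ ((J : ℝ) + 1) ^ d * (14 * m / l) ^ (d - K) := s2
    _ ≤ ((J : ℝ) + 1) ^ d * ((14 * (m : ℝ) / l) ^ d * (l : ℝ) ^ K) := by gcongr
    _ ≤ ((J : ℝ) + 1) ^ d * ((112 * (la / ℓ)) ^ d * (2 ^ d * (2 * ℓ))) := by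
        gcongr
        exact s4.trans (by gcongr)
    _ = 2 * ℓ * (112 * 2) ^ d * (((J : ℝ) + 1) * la / ℓ) ^ d := by
        rw [mul_pow, mul_pow, div_pow, div_pow, mul_pow]
        ring
    _ = _ := by norm_num

lemma h42_tau {d J l K τ : ℕ} (hlJ : 2 ^ l ≤ J) (hτ : 2 * (τ + 1) * (d - K) ≤ l * ((K + 1) / 2)) :
    (2 ^ τ + 1) ^ (2 * (d - K)) ≤ (J + 1) ^ ((K + 1) / 2) := by
  calc (2 ^ τ + 1) ^ (2 * (d - K)) ≤ (2 ^ (τ + 1)) ^ (2 * (d - K)) := by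
        apply Nat.pow_le_pow_left
        have : 1 ≤ 2 ^ τ := Nat.one_le_two_pow
        rw [pow_succ]
        omega
    _ = 2 ^ (2 * (τ + 1) * (d - K)) := by rw [← pow_mul]; congr 1; ring
    _ ≤ 2 ^ (l * ((K + 1) / 2)) := Nat.pow_le_pow_right (by norm_num) hτ
    _ = (2 ^ l) ^ ((K + 1) / 2) := by rw [pow_mul]
    _ ≤ (J + 1) ^ ((K + 1) / 2) := Nat.pow_le_pow_left (by omega) _

/-- the main case -/
lemma h42_large {d J : ℕ} (hd : 1 ≤ d) (hJ64 : 2 ^ 64 ≤ J) : ∃ K τ : ℕ, K ≤ d ∧ 1 ≤ τ ∧ τ ≤ J ∧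
  ((2 ^ d * ((4 ^ d * (J + 1) ^ K * (J / τ + 2) ^ (d - K)) *
      (2 ^ (K + 1) * (d * (J + 2 + τ) + 1))) : ℕ) : ℝ) ≤ (10 ^ 6 : ℝ) ^ d * gr d J ∧
  ((2 ^ d * (2 ^ K * (4 ^ d * (J + 1) ^ (K - (K + 1) / 2) * (J / τ + 2) ^ (d - K)) *
      (2 ^ τ + 1) ^ (2 * (d - K))) : ℕ) : ℝ) ≤ (10 ^ 6 : ℝ) ^ d * gr d J := by
  have hJ0 : J ≠ 0 := by
    have : 0 < 2 ^ 64 := by norm_num
    omega
  obtain ⟨l, hl1, hl2⟩ : ∃ l, 2 ^ l ≤ J ∧ J < 2 ^ (l + 1) :=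
    ⟨Nat.log 2 J, Nat.pow_log_le_self 2 hJ0, Nat.lt_pow_succ_log_self (by norm_num) J⟩
  have hl64 : 64 ≤ l := by
    by_contra h
    push Not at h
    have : 2 ^ (l + 1) ≤ 2 ^ 64 := Nat.pow_le_pow_right (by norm_num) (by omega)
    omega
  obtain ⟨m, hm1, hm2, hm3⟩ : ∃ m, 1 ≤ m ∧ 2 ^ (m - 1) ≤ l ∧ l < 2 ^ m :=
    ⟨Nat.log 2 l + 1, by omega, by
      rw [Nat.add_sub_cancel]; exact Nat.pow_log_le_self 2 (by omega),
      Nat.lt_pow_succ_log_self (by norm_num) l⟩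
  have hm7 : 7 ≤ m := by
    by_contra h
    push Not at h
    have : 2 ^ m ≤ 2 ^ 6 := Nat.pow_le_pow_right (by norm_num) (by omega)
    norm_num at this
    omega
  have h8 : 8 * m ≤ l := (h42_eight m hm7).trans hm2
  have hlJ : l ≤ J := (Nat.lt_two_pow_self (n := l)).le.trans hl1
  obtain ⟨K, τ, hK, hτ1, hτl, hlτ, hdK, hmK, hh⟩ := h42_choice hd hm7 h8
  refine ⟨K, τ, hK, hτ1, hτl.trans hlJ, ?_⟩
  obtain ⟨hb1, hb2⟩ := h42_ll_bounds hl64 hl1 hl2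
  have hmla := h42_m_le hl64 hm2 hm1 hb1
  have hJr : (0 : ℝ) ≤ J := Nat.cast_nonneg J
  have hdr : (1 : ℝ) ≤ d := by exact_mod_cast hd
  have hℓ1 : 1 ≤ ll (J : ℝ) := h42_ll_ge_one hJr
  have hla1 : 1 ≤ ll (ll (J : ℝ)) := h42_ll_ge_one (by linarith)
  have hP := h42_P hm7 h8 hlJ hτ1 hlτ hK hmK hm3 hm2 hℓ1 hmla hb1 hb2
  have hgr : gr d (J : ℝ) =
      ((J : ℝ) + 1) * ll (J : ℝ) * (((J : ℝ) + 1) * ll (ll (J : ℝ)) / ll (J : ℝ)) ^ d := rfl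
  rw [hgr]
  generalize ll (ll (J : ℝ)) = la at *
  generalize ll (J : ℝ) = ℓ at *
  have hM0 : 0 < ((J : ℝ) + 1) * la / ℓ := by
    have : 0 < ℓ := by linarith
    have : 0 < la := by linarith
    positivity
  generalize ((J : ℝ) + 1) * la / ℓ = M at *
  have hMd : 0 < M ^ d := by positivity
  have h2K : (2 : ℝ) ^ K ≤ 2 ^ d := pow_le_pow_right₀ (by norm_num) hK
  have hcd : ∀ c : ℝ, 1 ≤ c → c ≤ c ^ d := fun c hc => by
    calc c = c ^ 1 := by norm_num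
      _ ≤ c ^ d := pow_le_pow_right₀ hc hd
  constructor
  · have h1 : ((d : ℝ) * (J + 2 + τ) + 1) ≤ 3 * 2 ^ d * (J + 1) := by
      have h0 : (τ : ℝ) ≤ J := by exact_mod_cast hτl.trans hlJ
      have h2 := h42_d_le d
      have h3 : ((d : ℝ) * (J + 2 + τ) + 1) ≤ 3 * d * (J + 1) := by nlinarith
      nlinarith
    push_cast
    calc (2 : ℝ) ^ d * ((4 ^ d * (J + 1) ^ K * (((J / τ : ℕ) : ℝ) + 2) ^ (d - K)) *
          (2 ^ (K + 1) * (d * (J + 2 + τ) + 1)))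
        = 2 ^ d * 4 ^ d * 2 * (((J : ℝ) + 1) ^ K * (((J / τ : ℕ) : ℝ) + 2) ^ (d - K)) *
            (2 ^ K * (d * (J + 2 + τ) + 1)) := by ring
      _ ≤ 2 ^ d * 4 ^ d * 2 * (2 * ℓ * 224 ^ d * M ^ d) * (2 ^ d * (3 * 2 ^ d * (J + 1))) := by
          gcongr
      _ = 12 * (2 * 4 * 224 * 2 * 2) ^ d * ((J + 1) * ℓ * M ^ d) := by
          simp only [mul_pow]; ring
      _ ≤ 12 ^ d * (2 * 4 * 224 * 2 * 2) ^ d * ((J + 1) * ℓ * M ^ d) := by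
          gcongr
          exact hcd 12 (by norm_num)
      _ = (12 * (2 * 4 * 224 * 2 * 2)) ^ d * ((J + 1) * ℓ * M ^ d) := by rw [← mul_pow]
      _ ≤ (10 ^ 6 : ℝ) ^ d * ((J + 1) * ℓ * M ^ d) := by
          gcongr
          norm_num
  · have ht := h42_tau hl1 hh
    have ht' : ((2 : ℝ) ^ τ + 1) ^ (2 * (d - K)) ≤ ((J : ℝ) + 1) ^ ((K + 1) / 2) := by
      exact_mod_cast ht
    have hKh : (K - (K + 1) / 2) + (K + 1) / 2 = K := by omega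
    push_cast
    calc (2 : ℝ) ^ d * (2 ^ K * (4 ^ d * (J + 1) ^ (K - (K + 1) / 2) *
            (((J / τ : ℕ) : ℝ) + 2) ^ (d - K)) * (2 ^ τ + 1) ^ (2 * (d - K)))
        ≤ (2 : ℝ) ^ d * (2 ^ d * (4 ^ d * (J + 1) ^ (K - (K + 1) / 2) *
            (((J / τ : ℕ) : ℝ) + 2) ^ (d - K)) * ((J : ℝ) + 1) ^ ((K + 1) / 2)) := by gcongr
      _ = 2 ^ d * 2 ^ d * 4 ^ d * (((J : ℝ) + 1) ^ ((K - (K + 1) / 2) + (K + 1) / 2) *
            (((J / τ : ℕ) : ℝ) + 2) ^ (d - K)) := by rw [pow_add]; ring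
      _ = 2 ^ d * 2 ^ d * 4 ^ d * (((J : ℝ) + 1) ^ K *
            (((J / τ : ℕ) : ℝ) + 2) ^ (d - K)) := by rw [hKh]
      _ ≤ 2 ^ d * 2 ^ d * 4 ^ d * (2 * ℓ * 224 ^ d * M ^ d) := by gcongr
      _ = 2 * (2 * 2 * 4 * 224) ^ d * (1 * ℓ * M ^ d) := by simp only [mul_pow]; ring
      _ ≤ 2 ^ d * (2 * 2 * 4 * 224) ^ d * ((J + 1) * ℓ * M ^ d) := by
          gcongr
          · exact hcd 2 (by norm_num)
          · linarith
      _ = (2 * (2 * 2 * 4 * 224)) ^ d * ((J + 1) * ℓ * M ^ d) := by rw [← mul_pow]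
      _ ≤ (10 ^ 6 : ℝ) ^ d * ((J + 1) * ℓ * M ^ d) := by
          gcongr
          norm_num

theorem thm : G_PAR := by
  refine ⟨10 ^ 6, by norm_num, fun d J hd hJ => ?_⟩
  by_cases h : J < 2 ^ 64
  · exact ⟨0, 1, Nat.zero_le _, le_refl _, hJ, h42_small hd hJ h⟩
  · exact h42_large hd (not_lt.mp h)

end Pool.Agent.Helper42.UQ.PkPAR
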